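import Pool.Agent.helper11.VDI.SpecC

/-!
# Project INF (MP_07c750_an), version B, row `vdi:NRL`: nearby parameters give nearby metrics
-/

set_option autoImplicit false

open scoped ContDiff Topology InnerProductSpace ENNReal ComplexConjugate
open MeasureTheory Filter Set

namespace Pool.Agent.VDI

open Pool.Agent.RPQ (PN PJ UN upd IsOp)
open Pool.Agent.VQ (CH AdZ perZ rk)
open Pool.Agent.VN (aN)
open Pool.Agent.VD
open Pool.Agent.VDE (UWLD FDX)

noncomputable section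

theorem NRL_proof (hFBL : FBL_stmt) (hSED : VD.SED_stmt) (hLBZ : LBZ_stmt) : NRL_stmt := by
  intro d Γ _ _ K Cn k0 J p χ m Gs S hK hF hG hS
  obtain ⟨bf, hb1, -, -, hb4⟩ := hFBL d m Gs S hG.smooth hG.met
  obtain ⟨hsm, hL⟩ := hSED d Γ K Cn k0 J p χ hK hF
  have h1 : ∀ m' : ℕ, ∃ M : ℝ, 1 ≤ M ∧ ∀ ζ : ℕ × ℕ → ℝ, (∀ q, |ζ q| ≤ 1) → ∀ K' n : ℕ, n ≤ 2 → ∀ x : V d, ‖x‖ ≤ m' →
      ‖iteratedFDeriv ℝ n (bD χ K' ζ) x‖ ≤ M := by
    intro m'
    obtain ⟨⟨b, hb⟩, -⟩ := hL (Metric.closedBall (0 : V d) m') (isCompact_closedBall _ _)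
    refine ⟨max 1 (max (b 0) (max (b 1) (b 2))), le_max_left _ _, ?_⟩
    intro ζ hζ K' n hn x hx
    have h2 : ‖iteratedFDeriv ℝ n (bD χ K' ζ) x‖ ≤ b n := (hb ζ hζ n).2 K' x (by rw [Metric.mem_closedBall, dist_zero_right]; exact hx)
    refine h2.trans ?_
    have h3 : n = 0 ∨ n = 1 ∨ n = 2 := by omega
    rcases h3 with rfl | rfl | rfl
    · exact (le_max_left _ _).trans (le_max_right _ _)
    · exact ((le_max_left _ _).trans (le_max_right _ _)).trans (le_max_right _ _)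
    · exact ((le_max_right _ _).trans (le_max_right _ _)).trans (le_max_right _ _)
  choose M hM1 hM2 using h1
  choose C hC1 hC2 using fun (m' n : ℕ) => hLBZ d n (M m') (hM1 m')
  have hbs : ∀ m' i : ℕ, i ≤ 2 → bf m' i ≤ ∑ n ∈ Finset.range 3, bf m' n := by
    intro m' i hi
    exact Finset.single_le_sum (f := fun n => bf m' n) (fun n _ => zero_le_one.trans (hb1 m' n)) (Finset.mem_range.2 (by omega))
  have hCs : ∀ m' i : ℕ, i ≤ 2 → C m' i ≤ ∑ n ∈ Finset.range 3, C m' n := by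
    intro m' i hi
    exact Finset.single_le_sum (f := fun n => C m' n) (fun n _ => zero_le_one.trans (hC1 m' n)) (Finset.mem_range.2 (by omega))
  refine ⟨fun m' => (∑ n ∈ Finset.range 3, C m' n) * (∑ n ∈ Finset.range 3, bf m' n), ?_⟩
  intro k B R K' v s s' hR hv hs hs' hss hcls
  refine ⟨hcls, ?_⟩
  intro m' n x hn hx
  have hRp : (0 : ℝ) ≤ R ^ (-LX d) := Real.rpow_nonneg (zero_le_one.trans hR) _
  have hbp : (0 : ℝ) ≤ ∑ n ∈ Finset.range 3, bf m' n := Finset.sum_nonneg fun n _ => zero_le_one.trans (hb1 m' n)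
  have hsmG : ∀ t : V m, ContDiff ℝ ∞ (Gs t) := by
    intro t
    exact hG.smooth.comp ((contDiff_const (c := t)).prodMk contDiff_id)
  have e1 : (fun y => cfm (bD χ K' v) (Gs s) y - cfm (bD χ K' v) (Gs s') y) =
      fun y => Real.exp (bD χ K' v y) • (Gs s y - Gs s' y) := by
    funext y
    unfold cfm
    rw [smul_sub]
  rw [e1]
  have e2 := hC2 m' n (bD χ K' v) (fun y => Gs s y - Gs s' y) x ((∑ n ∈ Finset.range 3, bf m' n) * R ^ (-LX d))
    (((hsm v hv).2.2 K').1) ((hsmG s).sub (hsmG s')) (mul_nonneg hbp hRp) (by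
      intro i hi
      refine ⟨hM2 m' v hv K' i (by omega) x hx, ?_⟩
      refine (hb4 m' i s s' x hs hs' hx).trans ?_
      exact mul_le_mul (hbs m' i (by omega)) hss (norm_nonneg _) hbp)
  refine e2.trans ?_
  rw [← mul_assoc]
  exact mul_le_mul_of_nonneg_right (mul_le_mul_of_nonneg_right (hCs m' n hn) hbp) hRp

end

end Pool.Agent.VDI
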